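import Pool.Agent.R43.WF.Low
import Pool.Agent.R43.WF.UE

/-!
# MP_043c16_co, Q1 for even `k`: all `n` with `μ̂(ℤ_n, {k, 1}) ≥ k + 2`, and `g(k+2, {k, 1})`
-/

set_option autoImplicit false

namespace Pool.Agent.Results.MP_043c16_co.EvenThreshold

open Pool.Agent.R43.WF

/-- For even `k ≥ 2`: `ℤ_n` has a weakly `(k, 1)`-sum-free subset of size at least `k + 2` if and
only if `n ≥ 3k + 3` or `n` has a divisor `d ≡ 2 mod 3` with `3(k+2) ≤ n + n/d`; consequently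
`g(k+2, {k, 1}) = Gv (k + 2)`. -/
theorem result : ∀ k : ℕ, 2 ≤ k → k % 2 = 0 →
    (∀ n : ℕ, 0 < n → (k + 2 ≤ muHat n k 1 ↔
      3 * k + 3 ≤ n ∨ ∃ d : ℕ, d ∣ n ∧ d % 3 = 2 ∧ 3 * (k + 2) ≤ n + n / d)) ∧
    IsLeast {N : ℕ | ∀ n : ℕ, N ≤ n → 0 < n → k + 2 ≤ muHat n k 1} (Gv (k + 2)) :=
  fun k hk hke => ⟨fun n hn0 => even_iff ue_main k n hk hke hn0, g_value ue_main k hk hke⟩

end Pool.Agent.Results.MP_043c16_co.EvenThreshold
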