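import Pool.Agent.R43.WF.Low
import Pool.Agent.R43.WF.N18
import Pool.Agent.R43.WF.UE
import Pool.Agent.R43.WF.CONS
import Pool.Agent.R43.WF.UO
import Pool.Agent.R43.WF.AR

/-!
# MP_043c16_co, Q1: the value of `f(k+2, {k, 1})` for every `k ≥ 2`
-/

set_option autoImplicit false

namespace Pool.Agent.Results.MP_043c16_co.LeastOrder

open Pool.Agent.R43.WF

/-- For every `k ≥ 2`, `f(k+2, {k, 1}) = F (k + 2)`: the least `n ≥ 1` such that `ℤ_n` has a
weakly `(k, 1)`-sum-free subset of size at least `k + 2` is `F (k + 2)`. -/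
theorem result : ∀ k : ℕ, 2 ≤ k →
    IsLeast {n : ℕ | 0 < n ∧ k + 2 ≤ muHat n k 1} (F (k + 2)) :=
  fun k hk => f_value ue_main cons_main uo_main ar_main n18_main k hk

end Pool.Agent.Results.MP_043c16_co.LeastOrder
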