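import Pool.Agent.R43.WF.Low
import Pool.Agent.R43.WF.U3

/-!
# MP_043c16_co, Q1 for odd `k`: bounds for `g(k+2, {k, 1})`
-/

set_option autoImplicit false

namespace Pool.Agent.Results.MP_043c16_co.OddBounds

open Pool.Agent.R43.WF

/-- The divisor condition for odd `m`. -/
def DvOdd (m n : ℕ) : Prop := ∃ d ∈ n.divisors, d % 3 = 2 ∧ d ≠ 2 ∧ 3 * m ≤ n + n / d

instance (m n : ℕ) : Decidable (DvOdd m n) := by unfold DvOdd; infer_instance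

/-- One more than the largest `n ≤ 3m - 4` that violates the divisor condition. -/
def GvOdd (m : ℕ) : ℕ := Nat.findGreatest (fun n => ¬ DvOdd m n) (3 * m - 4) + 1

/-- For odd `k`: `GvOdd (k + 2) ≤ g(k+2, {k, 1}) ≤ 3k + 6`. -/
theorem result : ∀ k : ℕ, 2 ≤ k → k % 2 = 1 →
    ∃ g : ℕ, IsLeast {N : ℕ | ∀ n : ℕ, N ≤ n → 0 < n → k + 2 ≤ muHat n k 1} g ∧
      GvOdd (k + 2) ≤ g ∧ g ≤ 3 * k + 6 := by
  classical
  intro k hk hko
  have hup : 3 * k + 6 ∈ {N : ℕ | ∀ n : ℕ, N ≤ n → 0 < n → k + 2 ≤ muHat n k 1} := by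
    intro n hn hn0
    rw [eq_main n k hn0 hk]
    exact u3_main n (k + 2) (by omega) (by omega)
  refine ⟨sInf {N : ℕ | ∀ n : ℕ, N ≤ n → 0 < n → k + 2 ≤ muHat n k 1},
    ⟨Nat.sInf_mem ⟨_, hup⟩, fun N hN => Nat.sInf_le hN⟩, ?_, Nat.sInf_le hup⟩
  have hmem := Nat.sInf_mem (s := {N : ℕ | ∀ n : ℕ, N ≤ n → 0 < n → k + 2 ≤ muHat n k 1})
    ⟨_, hup⟩
  by_contra hlt
  push Not at hlt
  unfold GvOdd at hlt
  have h1 : ¬ DvOdd (k + 2) 1 := by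
    rintro ⟨d, hd, hd2, _⟩
    have : d = 1 := Nat.dvd_one.1 (Nat.mem_divisors.1 hd).1
    omega
  have hspec : ¬ DvOdd (k + 2)
      (Nat.findGreatest (fun n => ¬ DvOdd (k + 2) n) (3 * (k + 2) - 4)) :=
    Nat.findGreatest_spec (P := fun n => ¬ DvOdd (k + 2) n) (m := 1) (by omega) h1
  have hge : 1 ≤ Nat.findGreatest (fun n => ¬ DvOdd (k + 2) n) (3 * (k + 2) - 4) :=
    Nat.le_findGreatest (by omega) h1
  have hle : Nat.findGreatest (fun n => ¬ DvOdd (k + 2) n) (3 * (k + 2) - 4) ≤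
      3 * (k + 2) - 4 := Nat.findGreatest_le _
  have h3 := hmem (Nat.findGreatest (fun n => ¬ DvOdd (k + 2) n) (3 * (k + 2) - 4)) (by omega)
    (by omega)
  rw [eq_main _ k (by omega) hk] at h3
  obtain ⟨A, hA, hG⟩ := h3
  obtain ⟨d, h, c, e1, e2, e3, e4⟩ := low_gen _ (k + 2) (by omega) (by omega) A hA hG
  obtain ⟨f1, f2, f3⟩ := dvd_of_low (by omega) e1 e2 e3
  exact hspec ⟨d, Nat.mem_divisors.2 ⟨f1, by omega⟩, f2, (e4 (by omega)).1, f3⟩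

end Pool.Agent.Results.MP_043c16_co.OddBounds
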